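import Mathlib

set_option linter.unusedVariables false
set_option linter.unusedSimpArgs false

namespace Pool.Agent.Results.MP_5adcc8_co.EmptyLinesMatter

open Set

/-- A binary matrix (also used for patterns): `m` rows, `n` columns, entries `true = 1`,
`false = 0`. -/
structure BM where
  m : ℕ
  n : ℕ
  e : Fin m → Fin n → Bool

/-- `P` is an interval minor of `M`: the rows of `M` can be merged into `P.m` nonempty blocks of
consecutive rows and the columns into `P.n` nonempty blocks of consecutive columns (this is what a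
sequence of contractions does) so that the resulting matrix has a `1` wherever `P` has one. -/
def Minor (P M : BM) : Prop :=
  ∃ (r : Fin M.m → Fin P.m) (c : Fin M.n → Fin P.n),
    Monotone r ∧ Function.Surjective r ∧ Monotone c ∧ Function.Surjective c ∧
      ∀ a b, P.e a b = true → ∃ i j, r i = a ∧ c j = b ∧ M.e i j = true

/-- The class of binary matrices avoiding every member of `F`. -/
def Av (F : Set BM) : Set BM := {M | ∀ P ∈ F, ¬ Minor P M}

/-- Change the entry `(i, j)` to `1`. -/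
def setOne (M : BM) (i : Fin M.m) (j : Fin M.n) : BM :=
  ⟨M.m, M.n, fun i' j' => if i' = i ∧ j' = j then true else M.e i' j'⟩

/-- `M` is critical for the class `C`. -/
def Critical (C : Set BM) (M : BM) : Prop :=
  M ∈ C ∧ ∀ (i : Fin M.m) (j : Fin M.n), M.e i j = false → setOne M i j ∉ C

/-- Number of maximal blocks of consecutive `0`s in a vector, counted by their first elements. -/
def zeroRuns {n : ℕ} (v : Fin n → Bool) : ℕ :=
  (Finset.univ.filter (fun j : Fin n =>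
    v j = false ∧ ∀ j' : Fin n, j'.val + 1 = j.val → v j' = true)).card

/-- Finite row-complexity. -/
def RowBounded (C : Set BM) : Prop :=
  ∃ B : ℕ, ∀ M, Critical C M → ∀ i : Fin M.m, zeroRuns (M.e i) ≤ B

/-- Finite column-complexity. -/
def ColBounded (C : Set BM) : Prop :=
  ∃ B : ℕ, ∀ M, Critical C M → ∀ j : Fin M.n, zeroRuns (fun i => M.e i j) ≤ B

/-- `C` is bounded. -/
def Bounded (C : Set BM) : Prop := RowBounded C ∧ ColBounded C

/-- `P'` is obtained from `P` by inserting empty rows and columns at arbitrary positions. -/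
def InsertEmpty (P P' : BM) : Prop :=
  ∃ (r : Fin P.m → Fin P'.m) (c : Fin P.n → Fin P'.n), StrictMono r ∧ StrictMono c ∧
    (∀ a b, P'.e (r a) (c b) = P.e a b) ∧
    (∀ i j, (i ∉ range r ∨ j ∉ range c) → P'.e i j = false)

/-- Rows `010`, `100`, `001`. -/
def Q1 : BM := ⟨3, 3, ![![false, true, false], ![true, false, false], ![false, false, true]]⟩

/-- Rows `11`, `10`, `01`. -/
def R : BM := ⟨3, 2, ![![true, true], ![true, false], ![false, true]]⟩

/-- Rows `1001`, `1000`, `0001`: two empty columns inserted into `R`. -/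
def Rp : BM := ⟨3, 4, ![![true, false, false, true], ![true, false, false, false],
  ![false, false, false, true]]⟩

lemma lt_of_map {k l : ℕ} {r : Fin k → Fin l} (hr : Monotone r) {x y : Fin k}
    (h : r x < r y) : x < y := by
  by_contra hcon
  push Not at hcon
  exact absurd (hr hcon) (not_le.2 h)

def s3 (a b x : ℕ) : Fin 3 := if x < a then 0 else if x < b then 1 else 2

def s2 (a x : ℕ) : Fin 2 := if x < a then 0 else 1

lemma s3_mono {a b x y : ℕ} (h : x ≤ y) : s3 a b x ≤ s3 a b y := by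
  unfold s3
  split_ifs <;> first | decide | (exfalso; omega)

lemma s2_mono {a x y : ℕ} (h : x ≤ y) : s2 a x ≤ s2 a y := by
  unfold s2
  split_ifs <;> first | decide | (exfalso; omega)

lemma s3_zero {a b x : ℕ} (h : x < a) : s3 a b x = 0 := by simp [s3, h]

lemma s3_one {a b x : ℕ} (h : a ≤ x) (h' : x < b) : s3 a b x = 1 := by
  have : ¬ x < a := by omega
  simp [s3, this, h']

lemma s3_two {a b x : ℕ} (h : a ≤ x) (h' : b ≤ x) : s3 a b x = 2 := by
  have h1 : ¬ x < a := by omega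
  have h2 : ¬ x < b := by omega
  simp [s3, h1, h2]

lemma s2_zero {a x : ℕ} (h : x < a) : s2 a x = 0 := by simp [s2, h]

lemma s2_one {a x : ℕ} (h : a ≤ x) : s2 a x = 1 := by
  have : ¬ x < a := by omega
  simp [s2, this]

lemma Q1_of (M : BM) {r1 r2 r3 : Fin M.m} {c1 c2 c3 : Fin M.n} (h12 : r1 < r2) (h23 : r2 < r3)
    (g12 : c1 < c2) (g23 : c2 < c3) (e1 : M.e r1 c2 = true) (e2 : M.e r2 c1 = true)
    (e3 : M.e r3 c3 = true) : Minor Q1 M := by
  have h12' := Fin.lt_def.1 h12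
  have h23' := Fin.lt_def.1 h23
  have g12' := Fin.lt_def.1 g12
  have g23' := Fin.lt_def.1 g23
  refine ⟨fun x => s3 r2.val r3.val x.val, fun x => s3 c2.val c3.val x.val, ?_, ?_, ?_, ?_, ?_⟩
  · intro x y hxy
    exact s3_mono (Fin.le_def.1 hxy)
  · intro a
    fin_cases a
    · exact ⟨r1, s3_zero (by omega)⟩
    · exact ⟨r2, s3_one (by omega) (by omega)⟩
    · exact ⟨r3, s3_two (by omega) (by omega)⟩
  · intro x y hxy
    exact s3_mono (Fin.le_def.1 hxy)
  · intro a
    fin_cases a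
    · exact ⟨c1, s3_zero (by omega)⟩
    · exact ⟨c2, s3_one (by omega) (by omega)⟩
    · exact ⟨c3, s3_two (by omega) (by omega)⟩
  · intro a b hab
    fin_cases a <;> fin_cases b <;> simp [Q1] at hab
    · exact ⟨r1, c2, s3_zero (by omega), s3_one (by omega) (by omega), e1⟩
    · exact ⟨r2, c1, s3_one (by omega) (by omega), s3_zero (by omega), e2⟩
    · exact ⟨r3, c3, s3_two (by omega) (by omega), s3_two (by omega) (by omega), e3⟩

lemma Q1_elim (M : BM) (h : Minor Q1 M) : ∃ (r1 r2 r3 : Fin M.m) (c1 c2 c3 : Fin M.n),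
    r1 < r2 ∧ r2 < r3 ∧ c1 < c2 ∧ c2 < c3 ∧ M.e r1 c2 = true ∧ M.e r2 c1 = true ∧
    M.e r3 c3 = true := by
  obtain ⟨r, c, hr, _, hc, _, h⟩ := h
  obtain ⟨i1, j1, a1, b1, e1⟩ := h (0 : Fin 3) (1 : Fin 3) rfl
  obtain ⟨i2, j2, a2, b2, e2⟩ := h (1 : Fin 3) (0 : Fin 3) rfl
  obtain ⟨i3, j3, a3, b3, e3⟩ := h (2 : Fin 3) (2 : Fin 3) rfl
  refine ⟨i1, i2, i3, j2, j1, j3, lt_of_map hr ?_, lt_of_map hr ?_, lt_of_map hc ?_,
    lt_of_map hc ?_, e1, e2, e3⟩
  · rw [a1, a2]; exact (by decide : (0 : Fin 3) < 1)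
  · rw [a2, a3]; exact (by decide : (1 : Fin 3) < 2)
  · rw [b1, b2]; exact (by decide : (0 : Fin 3) < 1)
  · rw [b1, b3]; exact (by decide : (1 : Fin 3) < 2)

lemma R_of (M : BM) {p1 p2 p3 p4 : Fin M.m} {q1 q2 q3 q4 : Fin M.n}
    (h13 : p1 < p3) (h23 : p2 < p3) (h34 : p3 < p4)
    (g12 : q1 < q2) (g14 : q1 < q4) (g32 : q3 < q2) (g34 : q3 < q4)
    (e1 : M.e p1 q1 = true) (e2 : M.e p2 q2 = true) (e3 : M.e p3 q3 = true)
    (e4 : M.e p4 q4 = true) : Minor R M := by
  rw [Fin.lt_def] at *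
  refine ⟨fun x => s3 p3.val p4.val x.val, fun x => s2 (min q2.val q4.val) x.val, ?_, ?_, ?_, ?_, ?_⟩
  · intro x y hxy
    exact s3_mono (Fin.le_def.1 hxy)
  · intro a
    fin_cases a
    · exact ⟨p1, s3_zero (by omega)⟩
    · exact ⟨p3, s3_one (by omega) (by omega)⟩
    · exact ⟨p4, s3_two (by omega) (by omega)⟩
  · intro x y hxy
    exact s2_mono (Fin.le_def.1 hxy)
  · intro a
    fin_cases a
    · exact ⟨q1, s2_zero (by omega)⟩
    · exact ⟨q2, s2_one (by omega)⟩
  · intro a b hab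
    fin_cases a <;> fin_cases b <;> simp [R] at hab
    · exact ⟨p1, q1, s3_zero (by omega), s2_zero (by omega), e1⟩
    · exact ⟨p2, q2, s3_zero (by omega), s2_one (by omega), e2⟩
    · exact ⟨p3, q3, s3_one (by omega) (by omega), s2_zero (by omega), e3⟩
    · exact ⟨p4, q4, s3_two (by omega) (by omega), s2_one (by omega), e4⟩

lemma R_elim (M : BM) (h : Minor R M) : ∃ (p1 p2 p3 p4 : Fin M.m) (q1 q2 q3 q4 : Fin M.n),
    p1 < p3 ∧ p2 < p3 ∧ p3 < p4 ∧ q1 < q2 ∧ q1 < q4 ∧ q3 < q2 ∧ q3 < q4 ∧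
    M.e p1 q1 = true ∧ M.e p2 q2 = true ∧ M.e p3 q3 = true ∧ M.e p4 q4 = true := by
  obtain ⟨r, c, hr, _, hc, _, h⟩ := h
  obtain ⟨i1, j1, a1, b1, e1⟩ := h (0 : Fin 3) (0 : Fin 2) rfl
  obtain ⟨i2, j2, a2, b2, e2⟩ := h (0 : Fin 3) (1 : Fin 2) rfl
  obtain ⟨i3, j3, a3, b3, e3⟩ := h (1 : Fin 3) (0 : Fin 2) rfl
  obtain ⟨i4, j4, a4, b4, e4⟩ := h (2 : Fin 3) (1 : Fin 2) rfl
  have k01 : (0 : Fin 3) < 1 := by decide
  have k12 : (1 : Fin 3) < 2 := by decide
  have k2 : (0 : Fin 2) < 1 := by decide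
  refine ⟨i1, i2, i3, i4, j1, j2, j3, j4, lt_of_map hr ?_, lt_of_map hr ?_, lt_of_map hr ?_,
    lt_of_map hc ?_, lt_of_map hc ?_, lt_of_map hc ?_, lt_of_map hc ?_, e1, e2, e3, e4⟩
  · rw [a1, a3]; exact k01
  · rw [a2, a3]; exact k01
  · rw [a3, a4]; exact k12
  · rw [b1, b2]; exact k2
  · rw [b1, b4]; exact k2
  · rw [b3, b2]; exact k2
  · rw [b3, b4]; exact k2

lemma Rp_elim (M : BM) (h : Minor Rp M) : ∃ (p1 p3 p4 : Fin M.m) (q3 q4 : Fin M.n),
    p1 < p3 ∧ p3 < p4 ∧ q3.val + 3 ≤ q4.val ∧ M.e p3 q3 = true ∧ M.e p4 q4 = true := by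
  obtain ⟨r, c, hr, _, hc, hcs, h⟩ := h
  obtain ⟨i1, j1, a1, b1, e1⟩ := h (0 : Fin 3) (0 : Fin 4) rfl
  obtain ⟨i3, j3, a3, b3, e3⟩ := h (1 : Fin 3) (0 : Fin 4) rfl
  obtain ⟨i4, j4, a4, b4, e4⟩ := h (2 : Fin 3) (3 : Fin 4) rfl
  obtain ⟨x1, hx1⟩ := hcs (1 : Fin 4)
  obtain ⟨x2, hx2⟩ := hcs (2 : Fin 4)
  have k01 : (0 : Fin 3) < 1 := by decide
  have k12 : (1 : Fin 3) < 2 := by decide
  have m1 : j3 < x1 := lt_of_map hc (by rw [b3, hx1]; exact (by decide : (0 : Fin 4) < 1))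
  have m2 : x1 < x2 := lt_of_map hc (by rw [hx1, hx2]; exact (by decide : (1 : Fin 4) < 2))
  have m3 : x2 < j4 := lt_of_map hc (by rw [hx2, b4]; exact (by decide : (2 : Fin 4) < 3))
  refine ⟨i1, i3, i4, j3, j4, lt_of_map hr ?_, lt_of_map hr ?_, ?_, e3, e4⟩
  · rw [a1, a3]; exact k01
  · rw [a3, a4]; exact k12
  · have := Fin.lt_def.1 m1
    have := Fin.lt_def.1 m2
    have := Fin.lt_def.1 m3
    omega

lemma setOne_e (M : BM) (i : Fin M.m) (j : Fin M.n) (i' : Fin M.m) (j' : Fin M.n) :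
    (setOne M i j).e i' j' = true ↔ (i' = i ∧ j' = j) ∨ M.e i' j' = true := by
  simp only [setOne]
  split_ifs with h
  · simp [h]
  · simp [h]

lemma Q1_elim' (M : BM) (i : Fin M.m) (j : Fin M.n) (h : Minor Q1 (setOne M i j)) :
    ∃ (r1 r2 r3 : Fin M.m) (c1 c2 c3 : Fin M.n),
    r1 < r2 ∧ r2 < r3 ∧ c1 < c2 ∧ c2 < c3 ∧ ((r1 = i ∧ c2 = j) ∨ M.e r1 c2 = true) ∧
    ((r2 = i ∧ c1 = j) ∨ M.e r2 c1 = true) ∧ ((r3 = i ∧ c3 = j) ∨ M.e r3 c3 = true) := by
  obtain ⟨r1, r2, r3, c1, c2, c3, h12, h23, g12, g23, e1, e2, e3⟩ := Q1_elim _ h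
  exact ⟨r1, r2, r3, c1, c2, c3, h12, h23, g12, g23, (setOne_e M i j _ _).1 e1,
    (setOne_e M i j _ _).1 e2, (setOne_e M i j _ _).1 e3⟩

lemma R_elim' (M : BM) (i : Fin M.m) (j : Fin M.n) (h : Minor R (setOne M i j)) :
    ∃ (p1 p2 p3 p4 : Fin M.m) (q1 q2 q3 q4 : Fin M.n),
    p1 < p3 ∧ p2 < p3 ∧ p3 < p4 ∧ q1 < q2 ∧ q1 < q4 ∧ q3 < q2 ∧ q3 < q4 ∧
    ((p1 = i ∧ q1 = j) ∨ M.e p1 q1 = true) ∧ ((p2 = i ∧ q2 = j) ∨ M.e p2 q2 = true) ∧
    ((p3 = i ∧ q3 = j) ∨ M.e p3 q3 = true) ∧ ((p4 = i ∧ q4 = j) ∨ M.e p4 q4 = true) := by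
  obtain ⟨p1, p2, p3, p4, q1, q2, q3, q4, h13, h23, h34, g12, g14, g32, g34, e1, e2, e3, e4⟩ :=
    R_elim _ h
  exact ⟨p1, p2, p3, p4, q1, q2, q3, q4, h13, h23, h34, g12, g14, g32, g34,
    (setOne_e M i j _ _).1 e1, (setOne_e M i j _ _).1 e2, (setOne_e M i j _ _).1 e3,
    (setOne_e M i j _ _).1 e4⟩

def F0 : Set BM := {Q1, R}

def F1 : Set BM := {Q1, Rp}

lemma avQ {M : BM} (h : M ∈ Av F0) : ¬ Minor Q1 M := h Q1 (by simp [F0])
lemma avR {M : BM} (h : M ∈ Av F0) : ¬ Minor R M := h R (by simp [F0])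

lemma block {M : BM} (hM : Critical (Av F0) M) {i : Fin M.m} {j : Fin M.n}
    (hz : M.e i j = false) : Minor Q1 (setOne M i j) ∨ Minor R (setOne M i j) := by
  by_contra hcon
  push Not at hcon
  apply hM.2 i j hz
  intro P hP
  rcases hP with rfl | hP
  · exact hcon.1
  · rw [mem_singleton_iff] at hP
    subst hP
    exact hcon.2

lemma row_claim {M : BM} (hM : Critical (Av F0) M) {i : Fin M.m} {o z o' : Fin M.n}
    (h1 : o < z) (h2 : z < o') (ho : M.e i o = true) (hz : M.e i z = false)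
    (ho' : M.e i o' = true) : False := by
  have hQ := avQ hM.1
  have hR := avR hM.1
  rcases block hM hz with h | h
  · obtain ⟨r1, r2, r3, c1, c2, c3, h12, h23, g12, g23, e1, e2, e3⟩ := Q1_elim' _ _ _ h
    rcases e3 with ⟨rfl, rfl⟩ | e3
    · have e1' := e1.resolve_left (fun hh => absurd (h12.trans h23) (by rw [hh.1]; exact lt_irrefl _))
      have e2' := e2.resolve_left (fun hh => absurd h23 (by rw [hh.1]; exact lt_irrefl _))
      exact hQ (Q1_of M h12 h23 g12 (g23.trans h2) e1' e2' ho')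
    · rcases e2 with ⟨rfl, rfl⟩ | e2
      · have e1' := e1.resolve_left (fun hh => absurd h12 (by rw [hh.1]; exact lt_irrefl _))
        exact hQ (Q1_of M h12 h23 (h1.trans g12) g23 e1' ho e3)
      · rcases e1 with ⟨rfl, rfl⟩ | e1
        · exact hR (R_of M (p1 := r1) (p2 := r1) (p3 := r2) (p4 := r3) (q1 := o) (q2 := o')
            (q3 := c1) (q4 := c3) h12 h12 h23 (h1.trans h2) (h1.trans g23) (g12.trans h2)
            (g12.trans g23) ho ho' e2 e3)
        · exact hQ (Q1_of M h12 h23 g12 g23 e1 e2 e3)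
  · obtain ⟨p1, p2, p3, p4, q1, q2, q3, q4, h13, h23, h34, g12, g14, g32, g34, e1, e2, e3, e4⟩ :=
      R_elim' _ _ _ h
    rcases e1 with ⟨rfl, rfl⟩ | e1
    · have e2' := e2.resolve_left (fun hh => absurd g12 (by rw [hh.2]; exact lt_irrefl _))
      have e3' := e3.resolve_left (fun hh => absurd h13 (by rw [hh.1]; exact lt_irrefl _))
      have e4' := e4.resolve_left (fun hh => absurd g14 (by rw [hh.2]; exact lt_irrefl _))
      exact hR (R_of M h13 h23 h34 (h1.trans g12) (h1.trans g14) g32 g34 ho e2' e3' e4')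
    · rcases e2 with ⟨rfl, rfl⟩ | e2
      · have e3' := e3.resolve_left (fun hh => absurd h23 (by rw [hh.1]; exact lt_irrefl _))
        have e4' := e4.resolve_left
          (fun hh => absurd (h23.trans h34) (by rw [hh.1]; exact lt_irrefl _))
        exact hR (R_of M h13 h23 h34 (g12.trans h2) g14 (g32.trans h2) g34 e1 ho' e3' e4')
      · rcases e3 with ⟨rfl, rfl⟩ | e3
        · have e4' := e4.resolve_left (fun hh => absurd h34 (by rw [hh.1]; exact lt_irrefl _))
          exact hR (R_of M h13 h23 h34 g12 g14 (h1.trans g32) (h1.trans g34) e1 e2 ho e4')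
        · rcases e4 with ⟨rfl, rfl⟩ | e4
          · exact hR (R_of M h13 h23 h34 g12 (g14.trans h2) g32 (g34.trans h2) e1 e2 e3 ho')
          · exact hR (R_of M h13 h23 h34 g12 g14 g32 g34 e1 e2 e3 e4)

lemma col_claim {M : BM} (hM : Critical (Av F0) M) {j : Fin M.n} {o z o' : Fin M.m}
    (h1 : o < z) (h2 : z < o') (ho : M.e o j = true) (hz : M.e z j = false)
    (ho' : M.e o' j = true) : ∃ (p p' : Fin M.m) (q q' : Fin M.n),
      p < z ∧ z < p' ∧ j < q ∧ j < q' ∧ M.e p q = true ∧ M.e p' q' = true := by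
  have hQ := avQ hM.1
  have hR := avR hM.1
  rcases block hM hz with h | h
  · obtain ⟨r1, r2, r3, c1, c2, c3, h12, h23, g12, g23, e1, e2, e3⟩ := Q1_elim' _ _ _ h
    rcases e3 with ⟨rfl, rfl⟩ | e3
    · have e1' := e1.resolve_left (fun hh => absurd (h12.trans h23) (by rw [hh.1]; exact lt_irrefl _))
      have e2' := e2.resolve_left (fun hh => absurd h23 (by rw [hh.1]; exact lt_irrefl _))
      exact absurd (Q1_of M h12 (h23.trans h2) g12 g23 e1' e2' ho') hQ
    · rcases e2 with ⟨rfl, rfl⟩ | e2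
      · have e1' := e1.resolve_left (fun hh => absurd h12 (by rw [hh.1]; exact lt_irrefl _))
        exact ⟨r1, r3, c2, c3, h12, h23, g12, g12.trans g23, e1', e3⟩
      · rcases e1 with ⟨rfl, rfl⟩ | e1
        · exact absurd (Q1_of M (h1.trans h12) h23 g12 g23 ho e2 e3) hQ
        · exact absurd (Q1_of M h12 h23 g12 g23 e1 e2 e3) hQ
  · obtain ⟨p1, p2, p3, p4, q1, q2, q3, q4, h13, h23, h34, g12, g14, g32, g34, e1, e2, e3, e4⟩ :=
      R_elim' _ _ _ h
    rcases e1 with ⟨rfl, rfl⟩ | e1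
    · have e2' := e2.resolve_left (fun hh => absurd g12 (by rw [hh.2]; exact lt_irrefl _))
      have e3' := e3.resolve_left (fun hh => absurd h13 (by rw [hh.1]; exact lt_irrefl _))
      have e4' := e4.resolve_left (fun hh => absurd g14 (by rw [hh.2]; exact lt_irrefl _))
      exact absurd (R_of M (h1.trans h13) h23 h34 g12 g14 g32 g34 ho e2' e3' e4') hR
    · rcases e2 with ⟨rfl, rfl⟩ | e2
      · have e3' := e3.resolve_left (fun hh => absurd h23 (by rw [hh.1]; exact lt_irrefl _))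
        have e4' := e4.resolve_left
          (fun hh => absurd (h23.trans h34) (by rw [hh.1]; exact lt_irrefl _))
        exact absurd (R_of M h13 (h1.trans h23) h34 g12 g14 g32 g34 e1 ho e3' e4') hR
      · rcases e3 with ⟨rfl, rfl⟩ | e3
        · have e4' := e4.resolve_left (fun hh => absurd h34 (by rw [hh.1]; exact lt_irrefl _))
          exact ⟨p2, p4, q2, q4, h23, h34, g32, g34, e2, e4'⟩
        · rcases e4 with ⟨rfl, rfl⟩ | e4
          · exact absurd (R_of M h13 h23 (h34.trans h2) g12 g14 g32 g34 e1 e2 e3 ho') hR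
          · exact absurd (R_of M h13 h23 h34 g12 g14 g32 g34 e1 e2 e3 e4) hR

lemma col_claim2 {M : BM} (hM : Critical (Av F0) M) {j : Fin M.n} {o0 z1 o1 z2 o2 : Fin M.m}
    (h1 : o0 < z1) (h2 : z1 < o1) (h3 : o1 < z2) (h4 : z2 < o2)
    (ho0 : M.e o0 j = true) (hz1 : M.e z1 j = false) (ho1 : M.e o1 j = true)
    (hz2 : M.e z2 j = false) (ho2 : M.e o2 j = true) : False := by
  obtain ⟨p, p', q, q', a1, a2, a3, a4, a5, a6⟩ := col_claim hM h1 h2 ho0 hz1 ho1
  obtain ⟨s, s', t, t', b1, b2, b3, b4, b5, b6⟩ := col_claim hM h3 h4 ho1 hz2 ho2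
  exact avR hM.1 (R_of M (p1 := o0) (p2 := p) (p3 := o1) (p4 := s') (q1 := j) (q2 := q)
    (q3 := j) (q4 := t') (h1.trans h2) (a1.trans h2) (h3.trans b2) a3 b4 a3 b4 ho0 a5 ho1 b6)

/-- the set of first elements of runs -/
def starts {n : ℕ} (v : Fin n → Bool) : Finset (Fin n) :=
  Finset.univ.filter (fun j : Fin n =>
    v j = false ∧ ∀ j' : Fin n, j'.val + 1 = j.val → v j' = true)

lemma between {n : ℕ} {v : Fin n → Bool} {s t : Fin n} (hs : s ∈ starts v) (ht : t ∈ starts v)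
    (hst : s < t) : ∃ o : Fin n, s < o ∧ o < t ∧ v o = true := by
  simp only [starts, Finset.mem_filter, Finset.mem_univ, true_and] at hs ht
  have hlt := Fin.lt_def.1 hst
  have hn : t.val - 1 < n := by omega
  have hv := ht.2 ⟨t.val - 1, hn⟩ (by simp only; omega)
  refine ⟨⟨t.val - 1, hn⟩, ?_, ?_, hv⟩
  · rw [Fin.lt_def]
    simp only
    rcases Nat.lt_or_ge s.val (t.val - 1) with h | h
    · exact h
    · exfalso
      have : s = ⟨t.val - 1, hn⟩ := Fin.ext (by simp only; omega)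
      rw [← this, hs.1] at hv
      exact absurd hv (by simp)
  · rw [Fin.lt_def]
    simp only
    omega

lemma runs3 {n : ℕ} {v : Fin n → Bool} (h : 3 ≤ zeroRuns v) : ∃ o z o' : Fin n,
    o < z ∧ z < o' ∧ v o = true ∧ v z = false ∧ v o' = true := by
  have hc : (starts v).card = zeroRuns v := rfl
  set g := (starts v).orderEmbOfFin hc with hg
  have hm : ∀ k, g k ∈ starts v := fun k => Finset.orderEmbOfFin_mem _ _ _
  have l1 : g ⟨0, by omega⟩ < g ⟨1, by omega⟩ := g.strictMono (by simp [Fin.lt_def])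
  have l2 : g ⟨1, by omega⟩ < g ⟨2, by omega⟩ := g.strictMono (by simp [Fin.lt_def])
  obtain ⟨o, a1, a2, a3⟩ := between (hm _) (hm _) l1
  obtain ⟨o', b1, b2, b3⟩ := between (hm _) (hm _) l2
  have hz := hm ⟨1, by omega⟩
  simp only [starts, Finset.mem_filter, Finset.mem_univ, true_and] at hz
  exact ⟨o, _, o', a2, b1, a3, hz.1, b3⟩

lemma runs4 {n : ℕ} {v : Fin n → Bool} (h : 4 ≤ zeroRuns v) : ∃ o0 z1 o1 z2 o2 : Fin n,
    o0 < z1 ∧ z1 < o1 ∧ o1 < z2 ∧ z2 < o2 ∧ v o0 = true ∧ v z1 = false ∧ v o1 = true ∧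
    v z2 = false ∧ v o2 = true := by
  have hc : (starts v).card = zeroRuns v := rfl
  set g := (starts v).orderEmbOfFin hc with hg
  have hm : ∀ k, g k ∈ starts v := fun k => Finset.orderEmbOfFin_mem _ _ _
  have l1 : g ⟨0, by omega⟩ < g ⟨1, by omega⟩ := g.strictMono (by simp [Fin.lt_def])
  have l2 : g ⟨1, by omega⟩ < g ⟨2, by omega⟩ := g.strictMono (by simp [Fin.lt_def])
  have l3 : g ⟨2, by omega⟩ < g ⟨3, by omega⟩ := g.strictMono (by simp [Fin.lt_def])
  obtain ⟨o, a1, a2, a3⟩ := between (hm _) (hm _) l1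
  obtain ⟨o', b1, b2, b3⟩ := between (hm _) (hm _) l2
  obtain ⟨o'', c1, c2, c3⟩ := between (hm _) (hm _) l3
  have hz := hm ⟨1, by omega⟩
  have hz' := hm ⟨2, by omega⟩
  simp only [starts, Finset.mem_filter, Finset.mem_univ, true_and] at hz hz'
  exact ⟨o, _, o', _, o'', a2, b1, b2, c1, a3, hz.1, b3, hz'.1, c3⟩

lemma bounded_F0 : Bounded (Av F0) := by
  constructor
  · refine ⟨2, fun M hM i => ?_⟩
    by_contra hcon
    push Not at hcon
    obtain ⟨o, z, o', h1, h2, h3, h4, h5⟩ := runs3 (v := M.e i) hcon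
    exact row_claim hM h1 h2 h3 h4 h5
  · refine ⟨3, fun M hM j => ?_⟩
    by_contra hcon
    push Not at hcon
    obtain ⟨o0, z1, o1, z2, o2, h1, h2, h3, h4, h5, h6, h7, h8, h9⟩ :=
      runs4 (v := fun i => M.e i j) hcon
    exact col_claim2 hM h1 h2 h3 h4 h5 h6 h7 h8 h9

/-! ### Unboundedness after inserting two empty columns -/

/-- the staircase matrices -/
def MN (N : ℕ) : BM := ⟨N+2, 2*N+1, fun r x =>
  if r.val = 0 then decide (x.val % 2 = 0)
  else decide (x.val + 2*r.val = 2*N ∨ x.val + 2*r.val = 2*N+4)⟩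

lemma MN_one {N : ℕ} {r : Fin (MN N).m} {x : Fin (MN N).n} :
    (MN N).e r x = true ↔ (r.val = 0 ∧ x.val % 2 = 0) ∨
      (r.val ≠ 0 ∧ (x.val + 2*r.val = 2*N ∨ x.val + 2*r.val = 2*N+4)) := by
  simp only [MN]
  split_ifs with h
  · simp [h]
  · simp [h]

lemma MN_av (N : ℕ) : MN N ∈ Av F1 := by
  intro P hP
  rcases hP with rfl | hP
  · intro h
    obtain ⟨r1, r2, r3, c1, c2, c3, h12, h23, g12, g23, e1, e2, e3⟩ := Q1_elim _ h
    rw [MN_one] at e1 e2 e3
    rw [Fin.lt_def] at h12 h23 g12 g23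
    omega
  · rw [mem_singleton_iff] at hP
    subst hP
    intro h
    obtain ⟨p1, p3, p4, q3, q4, h1, h2, h3, e3, e4⟩ := Rp_elim _ h
    rw [MN_one] at e3 e4
    rw [Fin.lt_def] at h1 h2
    omega

lemma exists_critical (N : ℕ) : ∃ e' : Fin (N+2) → Fin (2*N+1) → Bool,
    (∀ (r : Fin (N+2)) (x : Fin (2*N+1)), ((r.val = 0 ∧ x.val % 2 = 0) ∨
      (r.val ≠ 0 ∧ (x.val + 2*r.val = 2*N ∨ x.val + 2*r.val = 2*N+4))) → e' r x = true) ∧
    Critical (Av F1) ⟨N+2, 2*N+1, e'⟩ := by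
  set S : Set (Fin (N+2) → Fin (2*N+1) → Bool) :=
    {e | (⟨N+2, 2*N+1, e⟩ : BM) ∈ Av F1} with hS
  have hmem : (MN N).e ∈ S := MN_av N
  obtain ⟨e', hle, hmax⟩ := S.toFinite.exists_le_maximal hmem
  refine ⟨e', ?_, hmax.prop, ?_⟩
  · intro r x h
    have h1 : (MN N).e r x = true := MN_one.2 h
    have := hle r x
    rw [h1] at this
    exact this rfl
  · intro i j hz hcon
    have h1 : (setOne ⟨N+2, 2*N+1, e'⟩ i j).e ∈ S := hcon
    have h2 : e' ≤ (setOne ⟨N+2, 2*N+1, e'⟩ i j).e := by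
      intro r x
      show e' r x ≤ (if r = i ∧ x = j then true else e' r x)
      split_ifs
      · exact Bool.le_true _
      · exact le_refl _
    have h3 := hmax.le_of_ge h1 h2 i j
    have h4 : (setOne ⟨N+2, 2*N+1, e'⟩ i j).e i j = true := by simp [setOne]
    rw [h4] at h3
    have h5 : e' i j = true := h3 rfl
    have h6 : e' i j = false := hz
    rw [h5] at h6
    exact absurd h6 (by simp)

lemma not_bounded_F1 : ¬ RowBounded (Av F1) := by
  rintro ⟨B, hB⟩
  obtain ⟨e', hge, hcrit⟩ := exists_critical (B+1)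
  have hb := hB _ hcrit ⟨0, by simp⟩
  have hN : B + 1 ≤ zeroRuns (e' ⟨0, by omega⟩) := by
    have hcard : (Finset.univ : Finset (Fin (B+1))).card = B + 1 := by simp
    refine le_trans (le_of_eq hcard.symm) ?_
    unfold zeroRuns
    refine Finset.card_le_card_of_injOn
      (fun a : Fin (B+1) => (⟨2*a.val+1, by omega⟩ : Fin (2*(B+1)+1))) ?_ ?_
    · intro a _
      simp only [Finset.coe_filter, Finset.mem_univ, true_and, mem_ofPred_eq]
      constructor
      · by_contra hne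
        have hone : e' ⟨0, by omega⟩ ⟨2*a.val+1, by omega⟩ = true := by
          cases hh : e' ⟨0, by omega⟩ ⟨2*a.val+1, by omega⟩
          · exact absurd hh hne
          · rfl
        have hav : (⟨B+1+2, 2*(B+1)+1, e'⟩ : BM) ∈ Av F1 := hcrit.1
        apply hav Q1 (by simp [F1])
        have ha := a.isLt
        refine Q1_of ⟨B+1+2, 2*(B+1)+1, e'⟩
          (r1 := (⟨0, by omega⟩ : Fin (B+1+2))) (r2 := (⟨B+1-a.val, by omega⟩ : Fin (B+1+2)))
          (r3 := (⟨B+1-a.val+1, by omega⟩ : Fin (B+1+2)))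
          (c1 := (⟨2*a.val, by omega⟩ : Fin (2*(B+1)+1)))
          (c2 := (⟨2*a.val+1, by omega⟩ : Fin (2*(B+1)+1)))
          (c3 := (⟨2*a.val+2, by omega⟩ : Fin (2*(B+1)+1))) ?_ ?_ ?_ ?_ hone ?_ ?_
        · rw [Fin.lt_def]; simp only; omega
        · rw [Fin.lt_def]; simp only; omega
        · rw [Fin.lt_def]; simp only; omega
        · rw [Fin.lt_def]; simp only; omega
        · apply hge
          simp only
          omega
        · apply hge
          simp only
          omega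
      · intro j' hj'
        apply hge
        left
        refine ⟨rfl, ?_⟩
        omega
    · intro a _ b _ hab
      simp only [Fin.mk.injEq] at hab
      exact Fin.ext (by omega)
  have : zeroRuns (e' ⟨0, by omega⟩) ≤ B := hb
  omega

lemma Q1_ne_R : Q1 ≠ R := by
  intro h
  have := congrArg BM.n h
  simp [Q1, R] at this

/-- **Inserting empty lines can change boundedness for sets of patterns.** -/
theorem result :
    ∃ (F F' : Set BM) (φ : BM → BM), F.Finite ∧
      (∀ P ∈ F, ∀ P' ∈ F, Minor P P' → P = P') ∧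
      (∀ P ∈ F, InsertEmpty P (φ P)) ∧ F' = φ '' F ∧
      Bounded (Av F) ∧ ¬ Bounded (Av F') := by
  classical
  refine ⟨F0, F1, fun P => if P = R then Rp else P, ?_, ?_, ?_, ?_, bounded_F0, ?_⟩
  · exact (Set.finite_singleton R).insert Q1
  · intro P hP P' hP' hmin
    have hRQ : ¬ Minor R Q1 := by
      intro h
      obtain ⟨p1, p2, p3, p4, q1, q2, q3, q4, h13, h23, h34, g12, g14, g32, g34, e1, e2, e3, e4⟩ :=
        R_elim _ h
      have key : ∀ (a b : Fin 3), Q1.e a b = true →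
          (a.val = 0 ∧ b.val = 1) ∨ (a.val = 1 ∧ b.val = 0) ∨ (a.val = 2 ∧ b.val = 2) := by
        intro a b hab
        fin_cases a <;> fin_cases b <;> simp [Q1] at hab ⊢
      have k1 := key p1 q1 e1
      have k2 := key p2 q2 e2
      have k3 := key p3 q3 e3
      have k4 := key p4 q4 e4
      rw [Fin.lt_def] at h13 h23 h34 g12 g14 g32 g34
      omega
    have hQR : ¬ Minor Q1 R := by
      rintro ⟨r, c, _, _, _, hc, _⟩
      have h3 : Fintype.card (Fin 3) ≤ Fintype.card (Fin 2) := Fintype.card_le_of_surjective c hc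
      rw [Fintype.card_fin, Fintype.card_fin] at h3
      omega
    rcases hP with rfl | hP <;> rcases hP' with rfl | hP'
    · rfl
    · rw [mem_singleton_iff] at hP'
      subst hP'
      exact absurd hmin hQR
    · rw [mem_singleton_iff] at hP
      subst hP
      exact absurd hmin hRQ
    · rw [mem_singleton_iff] at hP hP'
      rw [hP, hP']
  · intro P hP
    rcases hP with rfl | hP
    · show InsertEmpty Q1 (if Q1 = R then Rp else Q1)
      rw [if_neg Q1_ne_R]
      refine ⟨id, id, strictMono_id, strictMono_id, fun a b => rfl, ?_⟩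
      intro i j h
      simp at h
    · rw [mem_singleton_iff] at hP
      show InsertEmpty P (if P = R then Rp else P)
      rw [if_pos hP, hP]
      refine ⟨fun a => (a : Fin 3), fun b => (![0, 3] : Fin 2 → Fin 4) b, ?_, ?_, ?_, ?_⟩
      · intro a b hab; exact hab
      · intro a b hab
        revert a b
        show ∀ a b : Fin 2, a < b → (![0, 3] : Fin 2 → Fin 4) a < (![0, 3] : Fin 2 → Fin 4) b
        decide
      · show ∀ (a : Fin 3) (b : Fin 2), Rp.e a ((![0, 3] : Fin 2 → Fin 4) b) = R.e a b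
        intro a b
        fin_cases a <;> fin_cases b <;> rfl
      · show ∀ (i : Fin 3) (j : Fin 4), (i ∉ range (fun a : Fin 3 => a) ∨
          j ∉ range (fun b : Fin 2 => (![0, 3] : Fin 2 → Fin 4) b)) → Rp.e i j = false
        intro i j h
        rcases h with h | h
        · exact absurd ⟨i, rfl⟩ h
        · fin_cases j
          · exact absurd ⟨0, rfl⟩ h
          · fin_cases i <;> rfl
          · fin_cases i <;> rfl
          · exact absurd ⟨1, rfl⟩ h
  · unfold F0 F1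
    rw [image_insert_eq, image_singleton, if_neg Q1_ne_R, if_pos rfl]
  · exact fun h => not_bounded_F1 h.1

end Pool.Agent.Results.MP_5adcc8_co.EmptyLinesMatter
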